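import Pool.Agent.Y385.GD.Final

namespace Pool.Agent.Results.MP_bc5946_co.GeometricDesigns

open Module Filter Topology
open scoped LinearAlgebra.Projectivization

/-- `B` is the block collection of a `t-(v,k,lam)` design on the finite point set `Q`: every block
is a set of `k` points, and every set of `t` points is contained in exactly `lam` blocks. -/
def IsDesign {Q : Type} (t k lam : ℕ) (B : Set (Set Q)) : Prop :=
  (∀ b ∈ B, b.ncard = k) ∧ ∀ A : Set Q, A.ncard = t → {b ∈ B | A ⊆ b}.ncard = lam

/-- `S` is a defining set of the `t-(v,k,lam)` design `D`: it is a set of blocks of `D`, and `D` is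
the only `t-(v,k,lam)` design on the same point set whose blocks include those of `S`. -/
def IsDefiningSet {Q : Type} (t k lam : ℕ) (D S : Set (Set Q)) : Prop :=
  S ⊆ D ∧ ∀ B, IsDesign t k lam B → S ⊆ B → B = D

/-- `S` is a class defining set of the `t-(v,k,lam)` design `D`: it is a set of blocks of `D`, and
every `t-(v,k,lam)` design on the same point set whose blocks include those of `S` is isomorphic to
`D`, that is, it is the image of `D` under a permutation of the points. -/
def IsClassDefiningSet {Q : Type} (t k lam : ℕ) (D S : Set (Set Q)) : Prop :=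
  S ⊆ D ∧ ∀ B, IsDesign t k lam B → S ⊆ B → ∃ π : Equiv.Perm Q, B = (fun b => π '' b) '' D

/-- The proportion of blocks in a smallest defining set. -/
noncomputable def definingFraction {Q : Type} (t k lam : ℕ) (D : Set (Set Q)) : ℝ :=
  ((sInf {m : ℕ | ∃ S, IsDefiningSet t k lam D S ∧ S.ncard = m} : ℕ) : ℝ) / (D.ncard : ℝ)

/-- The proportion of blocks in a smallest class defining set. -/
noncomputable def classDefiningFraction {Q : Type} (t k lam : ℕ) (D : Set (Set Q)) : ℝ :=
  ((sInf {m : ℕ | ∃ S, IsClassDefiningSet t k lam D S ∧ S.ncard = m} : ℕ) : ℝ) / (D.ncard : ℝ)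

/-- The flats of projective dimension `d` of the projective space `PG(n,F)`, as sets of points: the
sets of all points contained in a linear subspace of dimension `d+1` of `F^(n+1)`. -/
def pgFlats (F : Type) [Field F] (n d : ℕ) : Set (Set (ℙ F (Fin (n + 1) → F))) :=
  {b | ∃ H : Submodule F (Fin (n + 1) → F), finrank F H = d + 1 ∧ b = {x | x.submodule ≤ H}}

/-- The flats of dimension `d` of the affine space `AG(n,F)`, as sets of points: the cosets of the
linear subspaces of dimension `d` of `F^n`. -/
def agFlats (F : Type) [Field F] (n d : ℕ) : Set (Set (Fin n → F)) :=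
  {b | ∃ (v : Fin n → F) (U : Submodule F (Fin n → F)), finrank F U = d ∧ b = {x | x - v ∈ U}}

/-- The number of `d`-dimensional subspaces of the `m`-dimensional space over `F`. -/
noncomputable def subspaceCount (F : Type) [Field F] (m d : ℕ) : ℕ :=
  {K : Submodule F (Fin m → F) | finrank F K = d}.ncard

lemma subspaceCount_zero (F : Type) [Field F] (m : ℕ) : subspaceCount F m 0 = 1 := by
  unfold subspaceCount
  rw [Set.ncard_eq_one]
  refine ⟨⊥, ?_⟩
  ext K
  simp

/-- The designs of points and `d`-flats of `PG(n,q)`. -/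
theorem pg (F : Type) [Field F] [Finite F] (d : ℕ) (hd : 1 ≤ d) :
    (∀ n, d ≤ n → IsDesign 2 (∑ i ∈ Finset.range (d + 1), Nat.card F ^ i)
        (subspaceCount F (n - 1) (d - 1)) (pgFlats F n d)) ∧
      Tendsto (fun n => definingFraction 2 (∑ i ∈ Finset.range (d + 1), Nat.card F ^ i)
        (subspaceCount F (n - 1) (d - 1)) (pgFlats F n d)) atTop (𝓝 1) ∧
      Tendsto (fun n => classDefiningFraction 2 (∑ i ∈ Finset.range (d + 1), Nat.card F ^ i)
        (subspaceCount F (n - 1) (d - 1)) (pgFlats F n d)) atTop (𝓝 1) := by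
  classical
  have _ : Fintype F := Fintype.ofFinite F
  have hdes : ∀ n, d ≤ n → Pool.Agent.Y385.GD.IsDesign 2
      (∑ i ∈ Finset.range (d + 1), Nat.card F ^ i) (subspaceCount F (n - 1) (d - 1))
      (Pool.Agent.Y385.GD.pgGeo F (n + 1) (d + 1) (by omega)).D := by
    intro n hn
    have h1 : n - 1 = (n + 1) - 2 := by omega
    have h2 : d - 1 = (d + 1) - 2 := by omega
    rw [h1, h2]
    apply (Pool.Agent.Y385.GD.pgGeo F (n + 1) (d + 1) (by omega)).isDesign_D (m := n + 1)
    · exact Module.finrank_fin_fun F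
    · intro A hA
      obtain ⟨x, y, hxy, rfl⟩ := Set.ncard_eq_two.1 hA
      rw [Set.image_pair]
      exact Pool.Agent.Y385.GD.pg_span_pair hxy
  have hk : 2 ≤ ∑ i ∈ Finset.range (d + 1), Nat.card F ^ i := by
    rw [Finset.sum_range_succ']
    have h1 : 1 ≤ ∑ i ∈ Finset.range d, Nat.card F ^ (i + 1) := by
      calc 1 ≤ Nat.card F ^ (0 + 1) := Nat.one_le_pow _ _ Nat.card_pos
        _ ≤ _ := Finset.single_le_sum (f := fun i => Nat.card F ^ (i + 1))
          (fun i _ => Nat.zero_le _) (Finset.mem_range.2 (by omega))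
    simpa using h1
  have hlim := Pool.Agent.Y385.GD.limits F 2 (d + 1) (∑ i ∈ Finset.range (d + 1), Nat.card F ^ i) d
    hk (fun n => n + 1) (fun n => by omega) (fun n => Fin (n + 1) → F)
    (fun n => ℙ F (Fin (n + 1) → F))
    (fun n => Pool.Agent.Y385.GD.pgGeo F (n + 1) (d + 1) (by omega))
    (fun n hn => by rw [Module.finrank_fin_fun]; omega)
    (fun n => subspaceCount F (n - 1) (d - 1)) hdes
  have hDn : ∀ n, (Pool.Agent.Y385.GD.pgGeo F (n + 1) (d + 1) (by omega)).D = pgFlats F n d :=
    fun n => Pool.Agent.Y385.GD.pgGeo_D F n d hd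
  refine ⟨fun n hn => ?_, ?_, ?_⟩
  · have := hdes n hn
    rw [hDn n] at this
    exact this
  · have := hlim.1
    simp only [hDn] at this
    exact this
  · have := hlim.2
    simp only [hDn] at this
    exact this

/-- The designs of points and `d`-flats of `AG(n,q)`, `q` at least 3. -/
theorem ag (F : Type) [Field F] [Finite F] (hq : 3 ≤ Nat.card F) (d : ℕ) (hd : 1 ≤ d) :
    (∀ n, d ≤ n → IsDesign 2 (Nat.card F ^ d) (subspaceCount F (n - 1) (d - 1)) (agFlats F n d)) ∧
      Tendsto (fun n => definingFraction 2 (Nat.card F ^ d)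
        (subspaceCount F (n - 1) (d - 1)) (agFlats F n d)) atTop (𝓝 1) ∧
      Tendsto (fun n => classDefiningFraction 2 (Nat.card F ^ d)
        (subspaceCount F (n - 1) (d - 1)) (agFlats F n d)) atTop (𝓝 1) := by
  classical
  have _ : Fintype F := Fintype.ofFinite F
  obtain ⟨l, hl0, hl1⟩ : ∃ l : F, l ≠ 0 ∧ l ≠ 1 := by
    by_contra hcon
    push Not at hcon
    have h1 : (Finset.univ : Finset F) ⊆ {0, 1} := by
      intro x _
      by_cases hx : x = 0
      · simp [hx]
      · simp [hcon x hx]
    have h2 := Finset.card_le_card h1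
    rw [Finset.card_univ, ← Nat.card_eq_fintype_card] at h2
    have h3 : ({0, 1} : Finset F).card ≤ 2 := Finset.card_le_two
    omega
  have hdim : ∀ n, finrank F (F × (Fin n → F)) = n + 1 := by
    intro n
    rw [Module.finrank_prod, finrank_self, Module.finrank_fin_fun, add_comm]
  have hDn : ∀ n, (Pool.Agent.Y385.GD.agGeo F n (d + 1) (by omega) l hl0 hl1).D =
      agFlats F n d := by
    intro n
    ext b
    exact Pool.Agent.Y385.GD.flat_eq b
  have hdes : ∀ n, d ≤ n → Pool.Agent.Y385.GD.IsDesign 2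
      (Nat.card F ^ d) (subspaceCount F (n - 1) (d - 1))
      (Pool.Agent.Y385.GD.agGeo F n (d + 1) (by omega) l hl0 hl1).D := by
    intro n hn
    have h1 : n - 1 = (n + 1) - 2 := by omega
    have h2 : d - 1 = (d + 1) - 2 := by omega
    rw [h1, h2]
    apply (Pool.Agent.Y385.GD.agGeo F n (d + 1) (by omega) l hl0 hl1).isDesign_D (m := n + 1)
      (hdim n)
    intro A hA
    obtain ⟨x, y, hxy, rfl⟩ := Set.ncard_eq_two.1 hA
    rw [Set.image_pair]
    change finrank F ↥(Submodule.span F {(Pool.Agent.Y385.GD.av x : F × (Fin n → F)),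
      Pool.Agent.Y385.GD.av y}) = 2
    have h3 : (Pool.Agent.Y385.GD.av x : F × (Fin n → F)) ∉
        Submodule.span F {(Pool.Agent.Y385.GD.av y : F × (Fin n → F))} :=
      fun h => hxy (Pool.Agent.Y385.GD.av_inj h)
    rw [Submodule.span_insert, sup_comm, Pool.Agent.Y385.GD.finrank_sup_single h3,
      finrank_span_singleton (fun h => one_ne_zero (congrArg Prod.fst h))]
  have hk : 2 ≤ Nat.card F ^ d := by
    calc 2 ≤ Nat.card F := by omega
      _ = Nat.card F ^ 1 := (pow_one _).symm
      _ ≤ _ := Nat.pow_le_pow_right Nat.card_pos hd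
  have hlim := Pool.Agent.Y385.GD.limits F 2 (d + 1) (Nat.card F ^ d) d
    hk (fun n => n) (fun n => le_refl n) (fun n => F × (Fin n → F))
    (fun n => Fin n → F)
    (fun n => Pool.Agent.Y385.GD.agGeo F n (d + 1) (by omega) l hl0 hl1)
    (fun n hn => by rw [hdim]; omega)
    (fun n => subspaceCount F (n - 1) (d - 1)) hdes
  refine ⟨fun n hn => ?_, ?_, ?_⟩
  · have := hdes n hn
    rw [hDn n] at this
    exact this
  · have := hlim.1
    simp only [hDn] at this
    exact this
  · have := hlim.2
    simp only [hDn] at this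
    exact this

/-- The designs of points and `d`-flats of `AG(n,2)`. -/
theorem ag_two (F : Type) [Field F] [Finite F] (hq : Nat.card F = 2) (d : ℕ) (hd : 2 ≤ d) :
    (∀ n, d ≤ n → IsDesign 3 (2 ^ d) (subspaceCount F (n - 2) (d - 2)) (agFlats F n d)) ∧
      Tendsto (fun n => definingFraction 3 (2 ^ d)
        (subspaceCount F (n - 2) (d - 2)) (agFlats F n d)) atTop (𝓝 1) ∧
      Tendsto (fun n => classDefiningFraction 3 (2 ^ d)
        (subspaceCount F (n - 2) (d - 2)) (agFlats F n d)) atTop (𝓝 1) := by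
  classical
  have _ : Fintype F := Fintype.ofFinite F
  have h01 : ∀ a : F, a = 0 ∨ a = 1 := by
    intro a
    by_contra hcon
    push Not at hcon
    have h1 : ({0, 1, a} : Finset F).card = 3 :=
      Finset.card_eq_three.2 ⟨0, 1, a, zero_ne_one, hcon.1.symm, hcon.2.symm, rfl⟩
    have h2 := Finset.card_le_univ ({0, 1, a} : Finset F)
    rw [h1, ← Nat.card_eq_fintype_card, hq] at h2
    omega
  have hdim : ∀ n, finrank F (F × (Fin n → F)) = n + 1 := by
    intro n
    rw [Module.finrank_prod, finrank_self, Module.finrank_fin_fun, add_comm]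
  have hDn : ∀ n, (Pool.Agent.Y385.GD.agGeo2 F n (d + 1) (by omega) h01).D =
      agFlats F n d := by
    intro n
    ext b
    exact Pool.Agent.Y385.GD.flat_eq b
  have hdes : ∀ n, d ≤ n → Pool.Agent.Y385.GD.IsDesign 3
      (2 ^ d) (subspaceCount F (n - 2) (d - 2))
      (Pool.Agent.Y385.GD.agGeo2 F n (d + 1) (by omega) h01).D := by
    intro n hn
    have h1 : n - 2 = (n + 1) - 3 := by omega
    have h2 : d - 2 = (d + 1) - 3 := by omega
    have h3 : 2 ^ d = (Pool.Agent.Y385.GD.agGeo2 F n (d + 1) (by omega) h01).θ (d + 1) := by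
      change 2 ^ d = Nat.card F ^ (d + 1 - 1)
      rw [hq, Nat.add_sub_cancel]
    rw [h1, h2, h3]
    apply (Pool.Agent.Y385.GD.agGeo2 F n (d + 1) (by omega) h01).isDesign_D (m := n + 1)
      (hdim n)
    intro A hA
    obtain ⟨x, y, z, hxy, hxz, hyz, rfl⟩ := Set.ncard_eq_three.1 hA
    change finrank F ↥(Submodule.span F ((Pool.Agent.Y385.GD.av : (Fin n → F) → F × (Fin n → F)) ''
      {x, y, z})) = 3
    rw [Set.image_insert_eq, Set.image_pair]
    have h4 : (Pool.Agent.Y385.GD.av y : F × (Fin n → F)) ∉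
        Submodule.span F {(Pool.Agent.Y385.GD.av z : F × (Fin n → F))} :=
      fun h => hyz (Pool.Agent.Y385.GD.av_inj h)
    have h5 : finrank F ↥(Submodule.span F {(Pool.Agent.Y385.GD.av y : F × (Fin n → F)),
        Pool.Agent.Y385.GD.av z}) = 2 := by
      rw [Submodule.span_insert, sup_comm, Pool.Agent.Y385.GD.finrank_sup_single h4,
        finrank_span_singleton (fun h => one_ne_zero (congrArg Prod.fst h))]
    have h6 : (Pool.Agent.Y385.GD.av x : F × (Fin n → F)) ∉
        Submodule.span F {(Pool.Agent.Y385.GD.av y : F × (Fin n → F)),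
          Pool.Agent.Y385.GD.av z} := by
      intro h
      obtain ⟨a, b, hab⟩ := Submodule.mem_span_pair.1 h
      have e1 : a + b = 1 := by
        have := congrArg Prod.fst hab
        simpa [Pool.Agent.Y385.GD.av] using this
      have e2 : a • y + b • z = x := by
        have := congrArg Prod.snd hab
        simpa [Pool.Agent.Y385.GD.av] using this
      rcases h01 a with rfl | rfl
      · rw [zero_add] at e1
        rw [e1, zero_smul, one_smul, zero_add] at e2
        exact hxz e2.symm
      · have hb : b = 0 := by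
          have h3 : (1 : F) + b = 1 + 0 := by rw [add_zero]; exact e1
          exact add_left_cancel h3
        rw [hb, zero_smul, one_smul, add_zero] at e2
        exact hxy e2.symm
    rw [Submodule.span_insert, sup_comm, Pool.Agent.Y385.GD.finrank_sup_single h6, h5]
  have hk : 3 ≤ 2 ^ d := by
    calc 3 ≤ 2 ^ 2 := by norm_num
      _ ≤ _ := Nat.pow_le_pow_right (by norm_num) hd
  have hlim := Pool.Agent.Y385.GD.limits F 3 (d + 1) (2 ^ d) d
    hk (fun n => n) (fun n => le_refl n) (fun n => F × (Fin n → F))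
    (fun n => Fin n → F)
    (fun n => Pool.Agent.Y385.GD.agGeo2 F n (d + 1) (by omega) h01)
    (fun n hn => by rw [hdim]; omega)
    (fun n => subspaceCount F (n - 2) (d - 2)) hdes
  refine ⟨fun n hn => ?_, ?_, ?_⟩
  · have := hdes n hn
    rw [hDn n] at this
    exact this
  · have := hlim.1
    simp only [hDn] at this
    exact this
  · have := hlim.2
    simp only [hDn] at this
    exact this

/-- **Smallest defining sets and smallest class defining sets of the geometric designs contain
asymptotically all blocks.** This holds for the points and `d`-flats of `PG(n,q)`, `d ≥ 1`, and of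
`AG(n,q)`, `q ≥ 3` and `d ≥ 1`, as 2-designs, and for the points and `d`-flats of `AG(n,2)`,
`d ≥ 2`, as 3-designs. The last part is the case of the Steiner triple systems `P_n` of points and
lines of `PG(n,2)`. -/
theorem result :
    (∀ (F : Type) [Field F] [Finite F] (d : ℕ), 1 ≤ d →
      (∀ n, d ≤ n → IsDesign 2 (∑ i ∈ Finset.range (d + 1), Nat.card F ^ i)
        (subspaceCount F (n - 1) (d - 1)) (pgFlats F n d)) ∧
      Tendsto (fun n => definingFraction 2 (∑ i ∈ Finset.range (d + 1), Nat.card F ^ i)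
        (subspaceCount F (n - 1) (d - 1)) (pgFlats F n d)) atTop (𝓝 1) ∧
      Tendsto (fun n => classDefiningFraction 2 (∑ i ∈ Finset.range (d + 1), Nat.card F ^ i)
        (subspaceCount F (n - 1) (d - 1)) (pgFlats F n d)) atTop (𝓝 1)) ∧
    (∀ (F : Type) [Field F] [Finite F], 3 ≤ Nat.card F → ∀ d : ℕ, 1 ≤ d →
      (∀ n, d ≤ n → IsDesign 2 (Nat.card F ^ d) (subspaceCount F (n - 1) (d - 1))
        (agFlats F n d)) ∧
      Tendsto (fun n => definingFraction 2 (Nat.card F ^ d)
        (subspaceCount F (n - 1) (d - 1)) (agFlats F n d)) atTop (𝓝 1) ∧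
      Tendsto (fun n => classDefiningFraction 2 (Nat.card F ^ d)
        (subspaceCount F (n - 1) (d - 1)) (agFlats F n d)) atTop (𝓝 1)) ∧
    (∀ (F : Type) [Field F] [Finite F], Nat.card F = 2 → ∀ d : ℕ, 2 ≤ d →
      (∀ n, d ≤ n → IsDesign 3 (2 ^ d) (subspaceCount F (n - 2) (d - 2)) (agFlats F n d)) ∧
      Tendsto (fun n => definingFraction 3 (2 ^ d)
        (subspaceCount F (n - 2) (d - 2)) (agFlats F n d)) atTop (𝓝 1) ∧
      Tendsto (fun n => classDefiningFraction 3 (2 ^ d)
        (subspaceCount F (n - 2) (d - 2)) (agFlats F n d)) atTop (𝓝 1)) ∧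
    ((∀ n, 1 ≤ n → IsDesign 2 3 1 (pgFlats (ZMod 2) n 1)) ∧
      Tendsto (fun n => definingFraction 2 3 1 (pgFlats (ZMod 2) n 1)) atTop (𝓝 1) ∧
      Tendsto (fun n => classDefiningFraction 2 3 1 (pgFlats (ZMod 2) n 1)) atTop (𝓝 1)) := by
  refine ⟨fun F _ _ d hd => pg F d hd, fun F _ _ hq d hd => ag F hq d hd,
    fun F _ _ hq d hd => ag_two F hq d hd, ?_⟩
  have h := pg (ZMod 2) 1 le_rfl
  have h1 : ∑ i ∈ Finset.range (1 + 1), Nat.card (ZMod 2) ^ i = 3 := by
    rw [Finset.sum_range_succ, Finset.sum_range_succ, Finset.sum_range_zero]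
    simp
  simp only [h1, Nat.sub_self, subspaceCount_zero] at h
  exact h

end Pool.Agent.Results.MP_bc5946_co.GeometricDesigns
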